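import Pool.Agent.Helper23.MC.Goals3

/-!
Packet MC-MM0: the real form of the theorem on prescribed clusters.
-/

set_option autoImplicit false

open Finset Filter Topology

open scoped Classical

namespace Pool.Agent.Helper13.MC

open Pool.Agent.Helper23.MC
open Pool.Agent.Helper88.CR (Rec)

theorem half_log {y : ℝ} (hy : 4 ≤ y) : Real.log y / 2 ≤ Real.log (y / 2) := by
  have h1 : Real.log (y / 2) = Real.log y - Real.log 2 := Real.log_div (by linarith) (by norm_num)
  have h2 : Real.log 4 ≤ Real.log y := Real.log_le_log (by norm_num) hy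
  have h3 : Real.log 4 = 2 * Real.log 2 := by
    rw [show (4 : ℝ) = 2 ^ 2 by norm_num, Real.log_pow]
    norm_num
  linarith

theorem half_log' {y : ℝ} (hy : 16 ≤ y) : 3 / 4 * Real.log y ≤ Real.log (y / 2) := by
  have h1 : Real.log (y / 2) = Real.log y - Real.log 2 := Real.log_div (by linarith) (by norm_num)
  have h2 : Real.log 16 ≤ Real.log y := Real.log_le_log (by norm_num) hy
  have h3 : Real.log 16 = 4 * Real.log 2 := by
    rw [show (16 : ℝ) = 2 ^ 4 by norm_num, Real.log_pow]
    norm_num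
  linarith

theorem quarter_log {x : ℝ} (hx : 16 ≤ x) : Real.log x / 2 ≤ Real.log (x / 4) := by
  have h1 : Real.log (x / 4) = Real.log x - Real.log 4 := Real.log_div (by linarith) (by norm_num)
  have h2 : Real.log 16 ≤ Real.log x := Real.log_le_log (by norm_num) hx
  have h3 : Real.log 16 = 2 * Real.log 4 := by
    rw [show (16 : ℝ) = 4 ^ 2 by norm_num, Real.log_pow]
    norm_num
  linarith

/-- comparison of the records at `x` and at `y ∈ [x/4, x]`. -/
theorem rec_le {x y : ℝ} (hx16 : 16 ≤ x) (e2 : 4 ≤ Real.log x) (e3 : 4 ≤ Real.log (Real.log x))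
    (e4 : 4 ≤ Real.log (Real.log (Real.log x))) (y3 : x / 4 ≤ y) (yx : y ≤ x) :
    Rec x / 16 ≤ Rec y := by
  have ly1 : Real.log (x / 4) ≤ Real.log y := Real.log_le_log (by linarith) y3
  have ly2 : Real.log y ≤ Real.log x := Real.log_le_log (by linarith) (by linarith)
  have l1' : Real.log x / 2 ≤ Real.log y := (quarter_log hx16).trans ly1
  have l2' : Real.log (Real.log x) / 2 ≤ Real.log (Real.log y) :=
    (half_log e2).trans (Real.log_le_log (by linarith) l1')
  have l2u : Real.log (Real.log y) ≤ Real.log (Real.log x) :=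
    Real.log_le_log (by linarith) ly2
  have l3 : Real.log (Real.log (Real.log x)) / 2 ≤ Real.log (Real.log (Real.log y)) :=
    (half_log e3).trans (Real.log_le_log (by linarith) l2')
  have l3u : Real.log (Real.log (Real.log y)) ≤ Real.log (Real.log (Real.log x)) :=
    Real.log_le_log (by linarith) l2u
  have l4 : Real.log (Real.log (Real.log (Real.log x))) / 2 ≤
      Real.log (Real.log (Real.log (Real.log y))) :=
    (half_log e4).trans (Real.log_le_log (by linarith) l3)
  have l4p : 0 ≤ Real.log (Real.log (Real.log (Real.log x))) := Real.log_nonneg (by linarith)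
  unfold Rec
  have b1 : (Real.log x / 2) * (Real.log (Real.log x) / 2) ^ 2 *
      (Real.log (Real.log (Real.log (Real.log x))) / 2) ≤
      Real.log y * Real.log (Real.log y) ^ 2 * Real.log (Real.log (Real.log (Real.log y))) := by
    have c2 : (Real.log (Real.log x) / 2) ^ 2 ≤ Real.log (Real.log y) ^ 2 :=
      pow_le_pow_left₀ (by linarith) l2' 2
    have c3 : (Real.log x / 2) * (Real.log (Real.log x) / 2) ^ 2 ≤
        Real.log y * Real.log (Real.log y) ^ 2 :=
      mul_le_mul l1' c2 (by positivity) (by linarith)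
    exact mul_le_mul c3 l4 (by linarith) (mul_nonneg (by linarith) (sq_nonneg _))
  have b2 : Real.log (Real.log (Real.log y)) ^ 2 ≤ Real.log (Real.log (Real.log x)) ^ 2 :=
    pow_le_pow_left₀ (by linarith) l3u 2
  have b3 : 0 < Real.log (Real.log (Real.log y)) ^ 2 := by
    have : 0 < Real.log (Real.log (Real.log y)) := by linarith
    positivity
  have b0 : 0 ≤ (Real.log x / 2) * (Real.log (Real.log x) / 2) ^ 2 *
      (Real.log (Real.log (Real.log (Real.log x))) / 2) := by
    have : 0 ≤ Real.log x := by linarith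
    positivity
  calc (Real.log x * Real.log (Real.log x) ^ 2 *
      Real.log (Real.log (Real.log (Real.log x))) / Real.log (Real.log (Real.log x)) ^ 2) / 16
      = (Real.log x / 2) * (Real.log (Real.log x) / 2) ^ 2 *
      (Real.log (Real.log (Real.log (Real.log x))) / 2) /
        Real.log (Real.log (Real.log x)) ^ 2 := by ring
    _ ≤ (Real.log x / 2) * (Real.log (Real.log x) / 2) ^ 2 *
      (Real.log (Real.log (Real.log (Real.log x))) / 2) /
        Real.log (Real.log (Real.log y)) ^ 2 :=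
        div_le_div_of_nonneg_left b0 b3 b2
    _ ≤ _ := div_le_div_of_nonneg_right b1 b3.le

/-- the record is larger than the logarithm. -/
theorem rec_ge {x : ℝ} (e2 : 4 ≤ Real.log x) (e3 : 4 ≤ Real.log (Real.log x))
    (e4 : 4 ≤ Real.log (Real.log (Real.log x)))
    (e5 : 1 ≤ Real.log (Real.log (Real.log (Real.log x)))) : Real.log x ≤ Rec x := by
  unfold Rec
  have h1 : Real.log (Real.log (Real.log x)) ≤ Real.log (Real.log x) := by
    have := Real.log_le_sub_one_of_pos (show 0 < Real.log (Real.log x) by linarith)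
    linarith
  have h2 : Real.log (Real.log (Real.log x)) ^ 2 ≤ Real.log (Real.log x) ^ 2 :=
    pow_le_pow_left₀ (by linarith) h1 2
  have h3 : 0 < Real.log (Real.log (Real.log x)) ^ 2 := by
    have : 0 < Real.log (Real.log (Real.log x)) := by linarith
    positivity
  rw [le_div_iff₀ h3]
  have h4 : 0 ≤ Real.log x := by linarith
  calc Real.log x * Real.log (Real.log (Real.log x)) ^ 2
      ≤ Real.log x * Real.log (Real.log x) ^ 2 := mul_le_mul_of_nonneg_left h2 h4
    _ = Real.log x * Real.log (Real.log x) ^ 2 * 1 := by ring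
    _ ≤ _ := mul_le_mul_of_nonneg_left e5 (by positivity)

theorem mm0 (h1 : StmtFRM) : StmtMM0 := by
  intro k
  obtain ⟨K, c, hc, x0, hx0⟩ := h1 k
  refine ⟨K, c / 32, by positivity, ?_⟩
  have ev1 : ∀ᶠ x : ℝ in atTop, ‖Real.log x ^ 2‖ ≤ 1 / 2 * ‖id x‖ :=
    (Real.isLittleO_pow_log_id_atTop (n := 2)).bound (by norm_num)
  have t2 : Tendsto (fun x : ℝ => Real.log (Real.log x)) atTop atTop :=
    Real.tendsto_log_atTop.comp Real.tendsto_log_atTop
  have t3 : Tendsto (fun x : ℝ => Real.log (Real.log (Real.log x))) atTop atTop :=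
    Real.tendsto_log_atTop.comp t2
  have t4 : Tendsto (fun x : ℝ => Real.log (Real.log (Real.log (Real.log x)))) atTop atTop :=
    Real.tendsto_log_atTop.comp t3
  have ev2 : ∀ᶠ x : ℝ in atTop, 4 + 32 / c ≤ Real.log x :=
    Real.tendsto_log_atTop.eventually_ge_atTop _
  have ev3 : ∀ᶠ x : ℝ in atTop, 4 ≤ Real.log (Real.log x) := t2.eventually_ge_atTop 4
  have ev4 : ∀ᶠ x : ℝ in atTop, 4 ≤ Real.log (Real.log (Real.log x)) := t3.eventually_ge_atTop 4
  have ev4' : ∀ᶠ x : ℝ in atTop, 1 ≤ Real.log (Real.log (Real.log (Real.log x))) :=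
    t4.eventually_ge_atTop 1
  have ev5 : ∀ᶠ x : ℝ in atTop, 2 * Real.log (Real.log x) ^ 2 ≤ 5 / 36 * Real.log x := by
    have h1 : ∀ᶠ u : ℝ in atTop, ‖Real.log u ^ 2‖ ≤ 5 / 72 * ‖id u‖ :=
      (Real.isLittleO_pow_log_id_atTop (n := 2)).bound (by norm_num)
    have h3 : ∀ᶠ u : ℝ in atTop, 2 * Real.log u ^ 2 ≤ 5 / 36 * u := by
      filter_upwards [h1, eventually_ge_atTop (1 : ℝ)] with u b1 b3
      rw [id, Real.norm_of_nonneg (by positivity), Real.norm_of_nonneg (by linarith)] at b1
      linarith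
    exact Real.tendsto_log_atTop.eventually h3
  obtain ⟨X, hX⟩ := eventually_atTop.mp (ev1.and (ev2.and (ev3.and (ev4.and (ev4'.and ev5)))))
  refine ⟨max X (max 16 (2 * x0 + 2)), fun x hx H hHK hHc hadm => ?_⟩
  obtain ⟨e1, e2', e3, e4, e4', e5⟩ := hX x (le_trans (le_max_left _ _) hx)
  have h32 : 0 < 32 / c := by positivity
  have e2 : 4 ≤ Real.log x := by linarith
  have hx16 : 16 ≤ x := le_trans (le_trans (le_max_left _ _) (le_max_right _ _)) hx
  have hx0' : 2 * (x0 : ℝ) + 2 ≤ x := le_trans (le_trans (le_max_right _ _) (le_max_right _ _)) hx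
  rw [id, Real.norm_eq_abs, Real.norm_eq_abs, abs_of_nonneg (by positivity : 0 ≤ Real.log x ^ 2),
    abs_of_nonneg (by linarith : 0 ≤ x)] at e1
  set y : ℕ := ⌊x / 2⌋₊ with hy
  have y1 : (y : ℝ) ≤ x / 2 := Nat.floor_le (by linarith)
  have y2 : x / 2 < y + 1 := Nat.lt_floor_add_one _
  have y3 : x / 4 ≤ y := by linarith
  have y4 : x0 ≤ y := by
    have : (x0 : ℝ) ≤ y := by linarith
    exact_mod_cast this
  obtain ⟨Y, hY1, hY2, hY3⟩ := hx0 y y4
  have hrec : Rec x / 16 ≤ Rec y := rec_le hx16 e2 e3 e4 y3 (by linarith)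
  have hrecx : Real.log x ≤ Rec x := rec_ge e2 e3 e4 e4'
  have hone : 1 ≤ c / 32 * Rec x := by
    have h5 : 32 / c ≤ Rec x := by linarith
    rw [div_le_iff₀ hc] at h5
    linarith
  have hYc : c / 32 * Rec x + 1 ≤ Y := by
    have h5 : c / 32 * Rec x + c / 32 * Rec x = c * (Rec x / 16) := by ring
    have h6 : c * (Rec x / 16) ≤ c * Rec y := mul_le_mul_of_nonneg_left hrec hc.le
    linarith
  have ly1 : Real.log (x / 4) ≤ Real.log y := Real.log_le_log (by linarith) y3
  have ly2 : Real.log y ≤ Real.log x := Real.log_le_log (by linarith) (by linarith)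
  have l1' : Real.log x / 2 ≤ Real.log y := (quarter_log hx16).trans ly1
  have l2' : 3 / 4 * Real.log (Real.log x) ≤ Real.log (Real.log y) := by
    have h5 : 16 ≤ Real.log x := by
      have h6 : Real.log (Real.log x) ≤ Real.log x / 4 + (Real.log 4 - 1) := by
        have h7 := Real.log_le_sub_one_of_pos (show 0 < Real.log x / 4 by linarith)
        rw [Real.log_div (by linarith) (by norm_num)] at h7
        linarith
      have h8 : Real.log 4 = 2 * Real.log 2 := by
        rw [show (4 : ℝ) = 2 ^ 2 by norm_num, Real.log_pow]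
        norm_num
      have h9 := Real.log_two_lt_d9
      by_contra h10
      push Not at h10
      have h11 : Real.log (Real.log x) < 4 := by
        have h12 : Real.log (Real.log x) ≤ Real.log 16 :=
          Real.log_le_log (by linarith) h10.le
        have h13 : Real.log 16 = 4 * Real.log 2 := by
          rw [show (16 : ℝ) = 2 ^ 4 by norm_num, Real.log_pow]
          norm_num
        linarith
      linarith
    exact (half_log' h5).trans (Real.log_le_log (by linarith) l1')
  have hYl : (Y : ℝ) ≤ Real.log x ^ 2 := by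
    refine hY2.trans (pow_le_pow_left₀ ?_ ly2 2)
    linarith
  -- the shifted set
  set H' : Finset ℕ := H.image (fun h => h + 1) with hH'
  have hinj : Function.Injective (fun h : ℕ => h + 1) := fun a b hab => by
    simpa using hab
  have hsub : H' ⊆ Icc 1 Y := by
    intro h hh
    obtain ⟨a, ha, rfl⟩ := Finset.mem_image.1 hh
    rw [Finset.mem_Icc]
    refine ⟨by omega, ?_⟩
    have h5 := hHc a ha
    have h6 : ((a + 1 : ℕ) : ℝ) ≤ Y := by
      push_cast
      linarith
    exact_mod_cast h6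
  have hcard : H'.card = K := by
    rw [hH', Finset.card_image_of_injective _ hinj, hHK]
  have hadm' : ∀ l : ℕ, l.Prime → ∃ a : ℕ, ∀ h ∈ H', ¬ h ≡ a [MOD l] := by
    intro l hl
    obtain ⟨a, ha⟩ := hadm l hl
    refine ⟨a + 1, fun h hh => ?_⟩
    obtain ⟨b, hb, rfl⟩ := Finset.mem_image.1 hh
    intro h5
    exact ha b hb (Nat.ModEq.add_right_cancel' 1 h5)
  obtain ⟨N, hN1, hN2⟩ := hY3 H' hsub hcard hadm'
  -- the set of the statement
  set T : Set ℕ := {m : ℕ | (m : ℝ) + c / 32 * Rec x ≤ x ∧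
        (∀ q : ℕ, q.Prime → m ≤ q → (q : ℝ) ≤ m + c / 32 * Rec x → ∃ h ∈ H, q = m + h) ∧
        k < (H.filter (fun h => (m + h).Prime)).card} with hT
  have hmem : ∀ n ∈ N, n + 1 ∈ T := by
    intro n hn
    obtain ⟨b1, b2, b3⟩ := hN1 n hn
    refine ⟨?_, fun q hq hnq hqn => ?_, ?_⟩
    · have c1 : (n : ℝ) ≤ y := by exact_mod_cast b1
      push_cast
      linarith
    · obtain ⟨h, rfl⟩ : ∃ h, q = n + h := ⟨q - n, by omega⟩
      have c1 : h ∈ Icc 1 Y := by
        rw [Finset.mem_Icc]
        refine ⟨by omega, ?_⟩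
        have c2 : (h : ℝ) ≤ Y := by
          push_cast at hqn
          linarith
        exact_mod_cast c2
      have c3 := b2 h c1 hq
      obtain ⟨a, ha, rfl⟩ := Finset.mem_image.1 c3
      exact ⟨a, ha, by omega⟩
    · refine lt_of_lt_of_le b3 ?_
      have c1 : H'.filter (fun h => (n + h).Prime) ⊆
          (H.filter (fun h => (n + 1 + h).Prime)).image (fun h => h + 1) := by
        intro h hh
        rw [Finset.mem_filter] at hh
        obtain ⟨a, ha, rfl⟩ := Finset.mem_image.1 hh.1
        rw [Finset.mem_image]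
        refine ⟨a, ?_, rfl⟩
        rw [Finset.mem_filter]
        refine ⟨ha, ?_⟩
        have c2 := hh.2
        rwa [show n + (a + 1) = n + 1 + a by ring] at c2
      exact (Finset.card_le_card c1).trans Finset.card_image_le
  have hfin : T.Finite := by
    refine (Set.finite_Iic ⌊x⌋₊).subset ?_
    intro m hm
    rw [Set.mem_Iic]
    apply Nat.le_floor
    have h5 := hm.1
    linarith
  have hNT : (N.card : ℝ) ≤ T.ncard := by
    have h5 : ((N.image (fun n => n + 1) : Finset ℕ) : Set ℕ) ⊆ T := by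
      intro s hs
      rw [Finset.mem_coe, Finset.mem_image] at hs
      obtain ⟨n, hn, rfl⟩ := hs
      exact hmem n hn
    have h6 := Set.ncard_le_ncard h5 hfin
    rw [Set.ncard_coe_finset, Finset.card_image_of_injective _ hinj] at h6
    exact_mod_cast h6
  refine le_trans ?_ hNT
  refine le_trans ?_ hN2
  -- the size
  set l1 := Real.log x with hl1
  set l2 := Real.log l1 with hl2
  have hxpos : 0 < x := by linarith
  have hl10 : 0 < l1 := by linarith
  have hl20 : 0 < l2 := by linarith
  have hy0 : (0 : ℝ) < y := by linarith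
  have hexp : Real.log y / (16 * Real.log (Real.log y) ^ 2) ≤ l1 / (9 * l2 ^ 2) := by
    have h5 : 9 * l2 ^ 2 ≤ 16 * Real.log (Real.log y) ^ 2 := by
      have h6 : (3 / 4 * l2) ^ 2 ≤ Real.log (Real.log y) ^ 2 :=
        pow_le_pow_left₀ (by linarith) l2' 2
      have h7 : (3 / 4 * l2) ^ 2 = 9 / 16 * l2 ^ 2 := by ring
      rw [h7] at h6
      linarith
    exact div_le_div₀ hl10.le ly2 (by positivity) h5
  have h5 : x ^ (1 - 1 / (4 * l2 ^ 2)) = x * Real.exp (-(l1 / (4 * l2 ^ 2))) := by
    have h51 : Real.exp l1 = x := Real.exp_log hxpos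
    rw [Real.rpow_def_of_pos hxpos]
    calc Real.exp (Real.log x * (1 - 1 / (4 * l2 ^ 2)))
        = Real.exp (l1 + -(l1 / (4 * l2 ^ 2))) := by
          congr 1
          rw [← hl1]
          ring
      _ = x * Real.exp (-(l1 / (4 * l2 ^ 2))) := by rw [Real.exp_add, h51]
  have h7 : (4 : ℝ) ≤ Real.exp 2 := by
    have h8 : Real.exp 2 = Real.exp 1 * Real.exp 1 := by
      rw [← Real.exp_add]
      norm_num
    have := Real.exp_one_gt_d9
    rw [h8]
    nlinarith
  have h8 : 2 + -(l1 / (4 * l2 ^ 2)) ≤ -(l1 / (9 * l2 ^ 2)) := by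
    have h9 : l1 / (4 * l2 ^ 2) = l1 / l2 ^ 2 * (1 / 4) := by field_simp
    have h9' : l1 / (9 * l2 ^ 2) = l1 / l2 ^ 2 * (1 / 9) := by field_simp
    have h10 : 2 ≤ 5 / 36 * (l1 / l2 ^ 2) := by
      rw [← mul_div_assoc, le_div_iff₀ (by positivity)]
      exact e5
    rw [h9, h9']
    linarith
  calc x ^ (1 - 1 / (4 * l2 ^ 2))
      = x / 4 * (4 * Real.exp (-(l1 / (4 * l2 ^ 2)))) := by
        rw [h5]
        ring
    _ ≤ x / 4 * (Real.exp 2 * Real.exp (-(l1 / (4 * l2 ^ 2)))) := by
        gcongr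
    _ = x / 4 * Real.exp (2 + -(l1 / (4 * l2 ^ 2))) := by
        rw [← Real.exp_add]
    _ ≤ y * Real.exp (-(Real.log y / (16 * Real.log (Real.log y) ^ 2))) := by
        apply mul_le_mul y3 _ (Real.exp_pos _).le hy0.le
        apply Real.exp_le_exp.2
        linarith

end Pool.Agent.Helper13.MC
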